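import Mathlib
import Pool.Agent.Work.MP_9d0e17_co.Transfer
import Pool.Agent.Work.LV.Interface

/-!
# MP_9d0e17_co: restricted isometry of clustered column sets far beyond the square root of `p`

See `BLUEPRINT.md`. The objects `chi p`, `psi p`, `hat`, `qC`, `Gs`, `nrm`, `resSet`, `Ph` are those of
`Pool.Agent.Paley67` (files `Work/MP_9d0e17_co/*.lean`), `vv`, `Sep` those of `Pool.Agent.Work.LV`.
-/

set_option autoImplicit false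

namespace Pool.Agent.Work.AP90

open Finset Polynomial Pool.Agent.Paley67 Pool.Agent.Work.LV

/-- The twisted short character sum over `y + 1, ..., y + N`. -/
noncomputable def SS (p : ℕ) [Fact p.Prime] (c y : ZMod p) (N : ℕ) : ℂ :=
  ∑ n ∈ Icc 1 N, ((chi p (y + (n : ZMod p)) : ℤ) : ℂ) * psi p (c * (n : ZMod p))

/-- The absolute value of the inner sum of Burgess's method, with an additive twist. -/
noncomputable def TB (p : ℕ) [Fact p.Prime] (β : ZMod p) (B : ℕ) (x : ZMod p) : ℝ :=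
  ‖∑ b ∈ Icc 1 B, ((chi p (x + (b : ZMod p)) : ℤ) : ℂ) * psi p (β * (b : ZMod p))‖

/-- The squared norm of the restriction of `x` to `S`. -/
noncomputable def nn {p : ℕ} (S : Finset (ZMod p)) (x : ZMod p → ℂ) : ℝ := ∑ a ∈ S, ‖x a‖ ^ 2

/-- The cross term of two sets of residues. -/
noncomputable def cross {p : ℕ} [Fact p.Prime] (S₁ S₂ : Finset (ZMod p)) (x : ZMod p → ℂ) : ℂ :=
  ∑ r : ZMod p, ((chi p r : ℤ) : ℂ) * (hat S₁ x r * (starRingEnd ℂ) (hat S₂ x r))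

/-- BLOCK WA (nonvanishing of the auxiliary polynomial; the quadratic version of
`Work/LV/W1.lean`, `aux_ne_zero`). -/
def Stmt_WA : Prop :=
  ∀ (p : ℕ) [Fact p.Prime] (f : (ZMod p)[X]) (d D m J : ℕ) (α : ZMod p),
    f.natDegree ≤ d → f.eval 0 ≠ 0 → Odd (f.rootMultiplicity α) → 2 * m + 1 = p →
    d + 2 * D < p → ∀ r : Fin 2 → ℕ → (ZMod p)[X], (∀ i j, (r i j).natDegree ≤ D) →
      ∑ j ∈ range J, (∑ i : Fin 2, r i j * f ^ (i.val * m)) * X ^ (j * p) = 0 →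
        ∀ j < J, ∀ i, r i j = 0

/-- BLOCK WB (Stepanov's count for `f(x)^m = a`, `p = 2m+1`). -/
def Stmt_WB : Prop :=
  ∀ d : ℕ, ∃ C : ℝ, 0 ≤ C ∧ ∀ (p : ℕ) [Fact p.Prime] (f : (ZMod p)[X]) (m : ℕ) (α : ZMod p),
    f.natDegree ≤ d → f.eval 0 ≠ 0 → Odd (f.rootMultiplicity α) → 2 * m + 1 = p →
      ∀ a : ZMod p,
        ((univ.filter fun x : ZMod p => f.eval x ^ m = a).card : ℝ) ≤ p / 2 + C * Real.sqrt p

/-- BLOCK W (Weil bound for the quadratic character, by Stepanov's method). -/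
def Stmt_W : Prop :=
  ∀ d : ℕ, ∃ C : ℝ, 0 ≤ C ∧ ∀ (p : ℕ) [Fact p.Prime], p ≠ 2 →
    ∀ F : (ZMod p)[X], F.natDegree ≤ d → (∃ α : ZMod p, Odd (F.rootMultiplicity α)) →
      |∑ x : ZMod p, (chi p (F.eval x) : ℝ)| ≤ C * Real.sqrt p

/-- BLOCK M (2r-th moment). -/
def Stmt_M : Prop :=
  ∀ r : ℕ, 1 ≤ r → ∃ C : ℝ, 0 ≤ C ∧ ∀ (p : ℕ) [Fact p.Prime], p ≠ 2 →
    ∀ B : ℕ, B < p → ∀ β : ZMod p,
      ∑ x : ZMod p, TB p β B x ^ (2 * r) ≤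
        C * ((B : ℝ) ^ r * p + (B : ℝ) ^ (2 * r) * Real.sqrt p)

/-- BLOCK CORE (Burgess's shift `n -> n + ab` for the twisted sums). -/
def Stmt_CORE : Prop :=
  ∀ (p : ℕ) [Fact p.Prime] (c β : ZMod p) (P : Finset ℕ) (𝓜 : Finset ℤ) (N B Y : ℕ) (V η : ℝ),
    (∀ a ∈ P, a.Coprime p ∧ a ≤ Y) →
    (∀ a ∈ P, ∀ b ∈ Icc 1 B, ‖psi p (c * (a : ZMod p) * (b : ZMod p)) -
      psi p (β * (b : ZMod p))‖ ≤ η) →
    (∀ M ∈ 𝓜, V ≤ ‖SS p c (M : ZMod p) N‖) →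
      (P.card : ℝ) * 𝓜.card * (B * (V - 2 * Y * B - N * η)) ≤
        ∑ x : ZMod p, (vv p P 𝓜 N x : ℝ) * TB p β B x

/-- BLOCK CELL (pigeonhole for the twist). -/
def Stmt_CELL : Prop :=
  ∀ (p : ℕ) [Fact p.Prime] (c : ZMod p) (P₀ : Finset ℕ) (G B : ℕ), 1 ≤ G →
    ∃ (β : ZMod p) (P : Finset ℕ), P ⊆ P₀ ∧ P₀.card ≤ G * P.card ∧
      ∀ a ∈ P, ∀ b ∈ Icc 1 B, ‖psi p (c * (a : ZMod p) * (b : ZMod p)) -
        psi p (β * (b : ZMod p))‖ ≤ 2 * Real.pi * B / G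

/-- BLOCK LV (large values of twisted short sums at separated points). -/
def Stmt_LV : Prop :=
  ∀ ε : ℝ, 0 < ε → ∃ δ : ℝ, 0 < δ ∧ ∃ P0 : ℕ, ∀ (p : ℕ) [Fact p.Prime], P0 ≤ p →
    ∀ (c : ZMod p) (N : ℕ), (p : ℝ) ^ ε ≤ N → 8 * N ≤ p → ∀ 𝓜 : Finset ℤ, Sep p N 𝓜 →
      (∀ M ∈ 𝓜, N * (p : ℝ) ^ (-δ) ≤ ‖SS p c (M : ZMod p) N‖) →
        (𝓜.card : ℝ) * N ^ 2 ≤ (p : ℝ) ^ (1 / 2 + ε)

/-- BLOCK SEP (a separated set of representatives). -/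
def Stmt_SEP : Prop :=
  ∀ (p : ℕ) [Fact p.Prime] (N : ℕ), 1 ≤ N → ∀ Ξ : Finset (ZMod p),
    ∃ 𝓜 : Finset ℤ, Sep p N 𝓜 ∧ (∀ M ∈ 𝓜, (M : ZMod p) ∈ Ξ) ∧ Ξ.card ≤ 2 * N * 𝓜.card

/-- BLOCK PAIR (two clusters of length `L`, windows of length `N`). -/
def Stmt_PAIR : Prop :=
  ∀ (p : ℕ) [Fact p.Prime] (c₁ c₂ : ZMod p) (L N : ℕ) (τ : ℝ), 0 ≤ τ → 1 ≤ N →
    ∀ (S₁ S₂ : Finset (ZMod p)) (x : ZMod p → ℂ),
      (∀ a ∈ S₁, ∃ i : ℕ, i < L ∧ a = c₁ + (i : ZMod p)) →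
      (∀ a ∈ S₂, ∃ i : ℕ, i < L ∧ a = c₂ + (i : ZMod p)) →
        ‖cross S₁ S₂ x‖ ≤
          (τ * p + (univ.filter fun y : ZMod p => N * τ ≤ ‖SS p (c₁ - c₂) y N‖).card *
              Real.sqrt (S₁.card * S₂.card) + 4 * Real.pi * N * L) *
            (Real.sqrt (nn S₁ x) * Real.sqrt (nn S₂ x))

/-- BLOCK CLUS (many clusters, common difference `d`). -/
def Stmt_CLUS : Prop :=
  ∀ (p : ℕ) [Fact p.Prime], p % 4 = 1 → ∀ (K : ℝ) (L : ℕ) (S W : Finset (ZMod p)) (d : ZMod p),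
    0 ≤ K → d ≠ 0 → (∀ a ∈ S, ∃ w ∈ W, ∃ i : ℕ, i < L ∧ a = w + d * (i : ZMod p)) →
    (∀ (c₁ c₂ : ZMod p) (S₁ S₂ : Finset (ZMod p)) (x : ZMod p → ℂ),
      S₁.card ≤ S.card → S₂.card ≤ S.card →
      (∀ a ∈ S₁, ∃ i : ℕ, i < L ∧ a = c₁ + (i : ZMod p)) →
      (∀ a ∈ S₂, ∃ i : ℕ, i < L ∧ a = c₂ + (i : ZMod p)) →
        ‖cross S₁ S₂ x‖ ≤ K * (Real.sqrt (nn S₁ x) * Real.sqrt (nn S₂ x))) →
    ∀ x : ZMod p → ℂ, Real.sqrt p * ‖qC S x‖ ≤ W.card * K * nn S x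

/-- BLOCK FRAME (from the quadratic form to the frame). -/
def Stmt_FRAME : Prop :=
  ∀ (p : ℕ) [Fact p.Prime], p % 4 = 1 → ∀ (S : Finset ℕ) (t : ℝ), S ⊆ range (p + 1) →
    (∀ x : ZMod p → ℂ, ‖qC (resSet p S) x‖ ≤ t * Real.sqrt p * nn (resSet p S) x) →
    ∀ x : ℕ → ℂ,
      |∑ r ∈ (range p).image (fun s => s * s % p), ‖∑ j ∈ S, Ph p r j * x j‖ ^ 2 -
          ∑ j ∈ S, ‖x j‖ ^ 2| ≤
        (t + Real.sqrt ((resSet p S).card / p)) * ∑ j ∈ S, ‖x j‖ ^ 2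

/-- BLOCK QF (the bound of the quadratic form; parameters). -/
def Stmt_QF : Prop :=
  ∀ ε : ℝ, 0 < ε → ∃ δ : ℝ, 0 < δ ∧ ∃ P0 : ℕ, ∀ (p : ℕ) [Fact p.Prime], p % 4 = 1 → P0 ≤ p →
    ∀ (L : ℕ) (S W : Finset (ZMod p)) (d : ZMod p), 1 ≤ L → d ≠ 0 → (W.card : ℝ) ≤ (p : ℝ) ^ δ →
      (∀ a ∈ S, ∃ w ∈ W, ∃ i : ℕ, i < L ∧ a = w + d * (i : ZMod p)) →
      (S.card : ℝ) * L ≤ (p : ℝ) ^ (3 / 2 - ε) →
        ∀ x : ZMod p → ℂ, ‖qC S x‖ ≤ (p : ℝ) ^ (-δ) * Real.sqrt p * nn S x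

end Pool.Agent.Work.AP90
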